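import Pool.Agent.Run7.h895.Final2

/-!
# Two different entropy maximizers are not piecewise continuous

The definitions (`E3`, `Oct`, `IsTest`, `divP`, `IsAF`, `AF`, `Ent`, `IsMaximizer`, `EntLike`) are in
`Pool/Agent/Run7/h895/Defs.lean`, and `LocPlanes` is in `Pool/Agent/Run7/h895/Final2.lean`:
`LocPlanes Z z` says that in some ball around `z` the set `Z` is contained in the union of finitely
many planes.
-/

namespace Pool.Agent.Results.MP_835ab5_pr.PolyhedralSingularities

open MeasureTheory Run7.h895

/-- Let `R` be compact, let `b` be a boundary value and let `g₁` and `g₂` both maximize `Ent` on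
`AF(R, b)`.  Let `Z` be a closed set which, except at the points of a set of two dimensional
Hausdorff measure zero, is locally contained in finitely many planes.  If `g₁ - g₂` is continuous at
every point outside `Z`, and `g₁` is continuous at every point outside `Z` where `g₁` and `g₂` are
different, then `g₁ = g₂` almost everywhere. -/
theorem result (ent : E3 → ℝ) (hent : EntLike ent) (R : Set E3) (hR : IsCompact R)
    (b : (E3 → ℝ) → ℝ) (g₁ g₂ : E3 → E3) (h₁ : IsMaximizer ent R b g₁)
    (h₂ : IsMaximizer ent R b g₂) (Z : Set E3) (hZ : IsClosed Z)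
    (hN : Measure.hausdorffMeasure 2 {z ∈ Z | ¬ LocPlanes Z z} = 0)
    (hc : ∀ x, x ∉ Z → ContinuousAt (fun x => g₁ x - g₂ x) x)
    (hc1 : ∀ x, x ∉ Z → g₁ x ≠ g₂ x → ContinuousAt g₁ x) : g₁ =ᵐ[volume] g₂ :=
  main' hent hR h₁ h₂ hZ hN hc hc1

end Pool.Agent.Results.MP_835ab5_pr.PolyhedralSingularities
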